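import Mathlib
import Pool.Agent.R603.OmegaCat

/-!
# The Ryll-Nardzewski theorem: omega-categorical structures are oligomorphic (helper546)
-/

set_option autoImplicit false

namespace Pool.Agent.R546.RN

open FirstOrder FirstOrder.Language Set

/-- a recursion lemma: sequences built one term at a time -/
theorem exists_seq {X : Type} (P : ℕ → (ℕ → X) → Prop) (Q : ℕ → (ℕ → X) → X → Prop)
    (hP : ∀ k a b, (∀ i < k, a i = b i) → P k a → P k b)
    (hQ : ∀ k a b x, (∀ i < k, a i = b i) → Q k a x → Q k b x)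
    (n₀ : ℕ) (a₀ : ℕ → X) (h0 : P n₀ a₀)
    (hstep : ∀ k a, n₀ ≤ k → P k a → ∃ x, P (k + 1) (Function.update a k x) ∧ Q k a x) :
    ∃ a : ℕ → X, (∀ i < n₀, a i = a₀ i) ∧ ∀ k, n₀ ≤ k → P k a ∧ Q k a (a k) := by
  classical
  have : Nonempty X := ⟨a₀ 0⟩
  choose! f hf using hstep
  let A : ℕ → ℕ → X := fun j => Nat.rec a₀ (fun j b => Function.update b (n₀ + j) (f (n₀ + j) b)) j
  have hA0 : A 0 = a₀ := rfl
  have hAs : ∀ j, A (j + 1) = Function.update (A j) (n₀ + j) (f (n₀ + j) (A j)) := fun j => rfl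
  have hPA : ∀ j, P (n₀ + j) (A j) := by
    intro j
    induction j with
    | zero => exact h0
    | succ j ih =>
      rw [hAs]
      exact (hf (n₀ + j) (A j) (Nat.le_add_right _ _) ih).1
  have hst : ∀ j l i, i < n₀ + j → A (j + l) i = A j i := by
    intro j l i hi
    induction l with
    | zero => rfl
    | succ l ih =>
      rw [← add_assoc, hAs, Function.update_of_ne (by omega), ih]
  let a : ℕ → X := fun i => A (i + 1) i
  have ha : ∀ j i, i < n₀ + j → A j i = a i := by
    intro j i hi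
    show A j i = A (i + 1) i
    rcases le_total j (i + 1) with h | h
    · obtain ⟨l, hl⟩ := Nat.exists_eq_add_of_le h
      rw [hl]
      exact (hst j l i hi).symm
    · obtain ⟨l, hl⟩ := Nat.exists_eq_add_of_le h
      rw [hl]
      exact hst (i + 1) l i (by omega)
  refine ⟨a, fun i hi => ?_, fun k hk => ?_⟩
  · rw [← ha 0 i (by omega), hA0]
  · obtain ⟨j, rfl⟩ := Nat.exists_eq_add_of_le hk
    refine ⟨hP _ _ _ (fun i hi => ha j i hi) (hPA j), ?_⟩
    have h2 := (hf (n₀ + j) (A j) (Nat.le_add_right _ _) (hPA j)).2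
    have e : a (n₀ + j) = f (n₀ + j) (A j) := by
      rw [← ha (j + 1) (n₀ + j) (by omega), hAs, Function.update_self]
    rw [e]
    exact hQ _ _ _ _ (fun i hi => ha j i hi) h2

section
variable {L : FirstOrder.Language.{0, 0}}

/-- same type -/
def St {M N : Type} [L.Structure M] [L.Structure N] {α : Type} (v : α → M) (w : α → N) : Prop :=
  ∀ φ : L.Formula α, φ.Realize v ↔ φ.Realize w

theorem ext_formula {n : ℕ} (χ : L.Formula (Fin (n + 1))) :
    ∃ χ' : L.Formula (Fin n), ∀ (M : Type) [L.Structure M] (v : Fin n → M),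
      χ'.Realize v ↔ ∃ b, χ.Realize (Fin.snoc v b : Fin (n + 1) → M) := by
  refine ⟨(χ.relabel (fun i => Fin.lastCases (motive := fun _ => Fin n ⊕ Unit) (Sum.inr ()) Sum.inl i)).iExs Unit,
    fun M _ v => ?_⟩
  rw [Formula.realize_iExs]
  have e : ∀ i : Unit → M, (Sum.elim v i ∘ fun i => Fin.lastCases (motive := fun _ => Fin n ⊕ Unit)
      (Sum.inr ()) Sum.inl i) = (Fin.snoc v (i ()) : Fin (n + 1) → M) := by
    intro i
    funext j
    refine Fin.lastCases ?_ (fun j => ?_) j
    · simp
    · simp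
  constructor
  · rintro ⟨i, hi⟩
    rw [Formula.realize_relabel, e] at hi
    exact ⟨_, hi⟩
  · rintro ⟨b, hb⟩
    refine ⟨fun _ => b, ?_⟩
    rw [Formula.realize_relabel, e]
    exact hb

variable {Ω : Type} [L.Structure Ω]

variable (L) in
/-- isolated type -/
def Isol {α : Type} (v : α → Ω) : Prop :=
  ∃ χ : L.Formula α, χ.Realize v ∧ ∀ w : α → Ω, χ.Realize w → St (L := L) w v

theorem St.symm' {M N : Type} [L.Structure M] [L.Structure N] {α : Type} {v : α → M} {w : α → N}
    (h : St (L := L) v w) : St (L := L) w v := fun φ => (h φ).symm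

theorem St.trans' {M N K : Type} [L.Structure M] [L.Structure N] [L.Structure K] {α : Type}
    {v : α → M} {w : α → N} {u : α → K}
    (h : St (L := L) v w) (h' : St (L := L) w u) : St (L := L) v u := fun φ => (h φ).trans (h' φ)

theorem St.comp {M N : Type} [L.Structure M] [L.Structure N] {α β : Type} {v : α → M} {w : α → N}
    (h : St (L := L) v w) (σ : β → α) : St (L := L) (v ∘ σ) (w ∘ σ) := by
  intro φ
  rw [← Formula.realize_relabel, ← Formula.realize_relabel]
  exact h _

theorem Isol.of_st {α : Type} {v w : α → Ω} (hv : Isol L v) (h : St (L := L) v w) : Isol L w := by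
  obtain ⟨χ, h1, h2⟩ := hv
  exact ⟨χ, (h χ).1 h1, fun u hu => (h2 u hu).trans' h⟩

theorem Isol.comp {n k : ℕ} {w : Fin k → Ω} (hw : Isol L w) (σ : Fin n → Fin k) :
    Isol L (w ∘ σ) := by
  obtain ⟨χ, h1, h2⟩ := hw
  let ψ : L.Formula (Fin n ⊕ Fin k) := χ.relabel Sum.inr ⊓
    Formula.iInf (fun i : Fin n => (Term.var (Sum.inl i)).equal (Term.var (Sum.inr (σ i))))
  have hψ : ∀ (v : Fin n → Ω) (z : Fin k → Ω), ψ.Realize (Sum.elim v z) ↔
      χ.Realize z ∧ ∀ i, v i = z (σ i) := by
    intro v z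
    rw [Formula.realize_inf, Formula.realize_relabel]
    apply and_congr
    · rw [Sum.elim_comp_inr]
    · unfold Formula.iInf Formula.Realize
      rw [BoundedFormula.realize_iInf]
      refine forall_congr' fun i => ?_
      have := Formula.realize_equal (L := L) (M := Ω) (t₁ := Term.var (Sum.inl i))
        (t₂ := Term.var (Sum.inr (σ i))) (x := (Sum.elim v z : Fin n ⊕ Fin k → Ω))
      unfold Formula.Realize at this
      rw [this]
      simp
  refine ⟨ψ.iExs (Fin k), ?_, fun v hv => ?_⟩
  · rw [Formula.realize_iExs]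
    exact ⟨w, (hψ _ _).2 ⟨h1, fun i => rfl⟩⟩
  · rw [Formula.realize_iExs] at hv
    obtain ⟨z, hz⟩ := hv
    obtain ⟨h3, h4⟩ := (hψ _ _).1 hz
    have e : v = z ∘ σ := funext h4
    rw [e]
    exact (h2 z h3).comp σ

/-- extension of isolated tuples, given density of isolated types -/
theorem isol_ext (hd : ∀ (n : ℕ) (φ : L.Formula (Fin n)) (v : Fin n → Ω), φ.Realize v →
      ∃ v' : Fin n → Ω, φ.Realize v' ∧ Isol L v')
    {k : ℕ} (v : Fin k → Ω) (hv : Isol L v) (ψ : L.Formula (Fin (k + 1))) (b : Ω)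
    (hb : ψ.Realize (Fin.snoc v b : Fin (k + 1) → Ω)) :
    ∃ c : Ω, ψ.Realize (Fin.snoc v c : Fin (k + 1) → Ω) ∧
      Isol L (Fin.snoc v c : Fin (k + 1) → Ω) := by
  obtain ⟨θ, h1, h2⟩ := hv
  have hsn : ∀ (u : Fin (k + 1) → Ω), (Fin.snoc (u ∘ Fin.castSucc) (u (Fin.last k)) :
      Fin (k + 1) → Ω) = u := by
    intro u
    funext j
    refine Fin.lastCases ?_ (fun j => ?_) j <;> simp
  have hsc : ∀ (u : Fin k → Ω) (c : Ω), (Fin.snoc u c : Fin (k + 1) → Ω) ∘ Fin.castSucc = u := by
    intro u c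
    funext j
    simp
  obtain ⟨v', h3, χ, h4, h5⟩ := hd (k + 1) (θ.relabel Fin.castSucc ⊓ ψ) (Fin.snoc v b) (by
    rw [Formula.realize_inf, Formula.realize_relabel, hsc]
    exact ⟨h1, hb⟩)
  rw [Formula.realize_inf, Formula.realize_relabel] at h3
  have h6 := h2 _ h3.1
  obtain ⟨χ', hχ'⟩ := ext_formula χ
  have h7 : χ'.Realize (v' ∘ Fin.castSucc) := (hχ' Ω _).2 ⟨v' (Fin.last k), by rw [hsn]; exact h4⟩
  have h8 : χ'.Realize v := (h6 χ').1 h7
  obtain ⟨c, hc⟩ := (hχ' Ω _).1 h8
  refine ⟨c, ?_, χ, hc, fun w hw => ?_⟩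
  · exact ((h5 _ hc) ψ).2 h3.2
  · exact (h5 _ hw).trans' (h5 _ hc).symm'

/-- the tuple of the first terms -/
def rs {X : Type} (k : ℕ) (a : ℕ → X) : Fin k → X := fun i => a i

theorem rs_update {X : Type} (k : ℕ) (a : ℕ → X) (x : X) :
    rs (k + 1) (Function.update a k x) = (Fin.snoc (rs k a) x : Fin (k + 1) → X) := by
  funext j
  refine Fin.lastCases ?_ (fun j => ?_) j
  · simp [rs]
  · have : (j : ℕ) ≠ k := by omega
    simp [rs, Function.update_of_ne this]

/-- there is an elementary countable substructure all of whose tuples are isolated -/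
theorem exists_atomic [Countable L.Symbols] [Nonempty Ω]
    (hd : ∀ (n : ℕ) (φ : L.Formula (Fin n)) (v : Fin n → Ω), φ.Realize v →
      ∃ v' : Fin n → Ω, φ.Realize v' ∧ Isol L v') :
    ∃ S : L.ElementarySubstructure Ω, Countable S ∧
      ∀ (n : ℕ) (v : Fin n → S), Isol L (fun i => (v i : Ω)) := by
  classical
  let Task : Type := Σ n : ℕ, L.Formula (Fin (n + 1)) × (Fin n → ℕ)
  have hT : Countable Task := inferInstance
  have hTn : Nonempty Task := ⟨⟨0, ⊤, fun i => i.elim0⟩⟩
  obtain ⟨e0, he0⟩ := exists_surjective_nat Task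
  -- every task infinitely often
  let e : ℕ → Task := fun k => e0 (Nat.unpair k).1
  have he : ∀ (t : Task) (N : ℕ), ∃ k, N ≤ k ∧ e k = t := by
    intro t N
    obtain ⟨i, hi⟩ := he0 t
    refine ⟨Nat.pair i N, Nat.right_le_pair i N, ?_⟩
    show e0 (Nat.unpair (Nat.pair i N)).1 = t
    rw [Nat.unpair_pair]
    exact hi
  obtain ⟨a, -, ha⟩ := exists_seq (X := Ω) (fun k a => Isol L (rs k a))
    (fun k a x => (∀ j, (e k).2.2 j < k) →
      (∃ y, (e k).2.1.Realize (Fin.snoc (a ∘ (e k).2.2) y : Fin ((e k).1 + 1) → Ω)) →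
      (e k).2.1.Realize (Fin.snoc (a ∘ (e k).2.2) x : Fin ((e k).1 + 1) → Ω))
    (by
      intro k a b hab h
      have : rs k a = rs k b := funext fun i => hab i i.2
      show Isol L (rs k b)
      rw [← this]
      exact h)
    (by
      intro k a b x hab h h1 h2
      have : a ∘ (e k).2.2 = b ∘ (e k).2.2 := funext fun i => hab _ (h1 i)
      rw [← this] at h2 ⊢
      exact h h1 h2)
    0 (fun _ => Classical.arbitrary Ω)
    (by
      obtain ⟨v', -, hv'⟩ := hd 0 ⊤ (rs 0 (fun _ => Classical.arbitrary Ω)) (by simp)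
      have : rs 0 (fun _ => Classical.arbitrary Ω) = v' := Subsingleton.elim _ _
      show Isol L (rs 0 (fun _ => Classical.arbitrary Ω))
      rw [this]
      exact hv')
    (by
      intro k a _ hk
      by_cases hc : (∀ j, (e k).2.2 j < k) ∧
        (∃ y, (e k).2.1.Realize (Fin.snoc (a ∘ (e k).2.2) y : Fin ((e k).1 + 1) → Ω))
      · obtain ⟨hc1, y, hy⟩ := hc
        let σ : Fin ((e k).1 + 1) → Fin (k + 1) :=
          fun i => Fin.lastCases (motive := fun _ => Fin (k + 1)) (Fin.last k)
            (fun j => ⟨(e k).2.2 j, (hc1 j).trans (Nat.lt_succ_self k)⟩) i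
        have hσ : ∀ x : Ω, (Fin.snoc (rs k a) x : Fin (k + 1) → Ω) ∘ σ =
            (Fin.snoc (a ∘ (e k).2.2) x : Fin ((e k).1 + 1) → Ω) := by
          intro x
          funext j
          refine Fin.lastCases ?_ (fun j => ?_) j
          · simp [σ]
          · have h1 : σ j.castSucc = Fin.castSucc ⟨(e k).2.2 j, hc1 j⟩ := by
              simp only [σ, Fin.lastCases_castSucc]
              rfl
            simp only [Function.comp_apply, h1, Fin.snoc_castSucc]
            rfl
        obtain ⟨c, h1, h2⟩ := isol_ext hd (rs k a) hk ((e k).2.1.relabel σ) y (by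
          rw [Formula.realize_relabel, hσ]
          exact hy)
        refine ⟨c, ?_, fun _ _ => ?_⟩
        · show Isol L (rs (k + 1) (Function.update a k c))
          rw [rs_update]
          exact h2
        · rw [Formula.realize_relabel, hσ] at h1
          exact h1
      · obtain ⟨c, -, h2⟩ := isol_ext hd (rs k a) hk ⊤ (Classical.arbitrary Ω) (by simp)
        refine ⟨c, ?_, fun h3 h4 => absurd ⟨h3, h4⟩ hc⟩
        show Isol L (rs (k + 1) (Function.update a k c))
        rw [rs_update]
        exact h2)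
  have key : ∀ (n : ℕ) (φ : L.Formula (Fin (n + 1))) (σ : Fin n → ℕ) (y : Ω),
      φ.Realize (Fin.snoc (a ∘ σ) y : Fin (n + 1) → Ω) →
      ∃ k, φ.Realize (Fin.snoc (a ∘ σ) (a k) : Fin (n + 1) → Ω) := by
    intro n φ σ y hy
    obtain ⟨N, hN⟩ : ∃ N, ∀ j, σ j < N := by
      obtain ⟨N, hN⟩ := (Set.finite_range σ).bddAbove
      exact ⟨N + 1, fun j => Nat.lt_succ_of_le (hN ⟨j, rfl⟩)⟩
    obtain ⟨k, hk1, hk2⟩ := he ⟨n, φ, σ⟩ N
    have h1 := (ha k (Nat.zero_le _)).2
    rw [hk2] at h1
    exact ⟨k, h1 (fun j => (hN j).trans_le hk1) ⟨y, hy⟩⟩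
  let S₀ : L.Substructure Ω :=
    { carrier := Set.range a
      fun_mem := by
        intro n f x hx
        choose σ hσ using hx
        have hσ' : a ∘ σ = x := funext hσ
        obtain ⟨k, hk⟩ := key n ((Term.var (Fin.last n)).equal
          (Term.func f (fun i => Term.var i.castSucc))) σ (Structure.funMap f x) (by
          rw [Formula.realize_equal]
          simp [hσ'])
        rw [Formula.realize_equal] at hk
        refine ⟨k, ?_⟩
        simpa [hσ'] using hk }
  have hS₀ : ∀ x : Ω, x ∈ S₀ ↔ ∃ i, a i = x := fun x => Iff.rfl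
  have hel : S₀.IsElementary := by
    apply Substructure.isElementary_of_exists
    intro n φ x y hy
    have hx : ∀ j, ∃ i, a i = (x j : Ω) := fun j => (hS₀ _).1 (x j).2
    choose σ hσ using hx
    have hσ' : a ∘ σ = (fun j => (x j : Ω)) := funext hσ
    have hr : ∀ z : Ω, (φ.toFormula.relabel (Sum.elim Empty.elim id) : L.Formula (Fin (n + 1))).Realize
        (Fin.snoc (a ∘ σ) z : Fin (n + 1) → Ω) ↔
        φ.Realize default (Fin.snoc ((↑) ∘ x) z : Fin (n + 1) → Ω) := by
      intro z
      rw [Formula.realize_relabel, BoundedFormula.realize_toFormula, hσ']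
      apply iff_of_eq
      congr 1
      funext j
      exact j.elim
    obtain ⟨k, hk⟩ := key n _ σ y ((hr y).2 hy)
    exact ⟨⟨a k, (hS₀ _).2 ⟨k, rfl⟩⟩, (hr _).1 hk⟩
  refine ⟨⟨S₀, hel⟩, ?_, fun n v => ?_⟩
  · exact (Set.countable_range a).to_subtype
  · have hx : ∀ j, ∃ i, a i = (v j : Ω) := fun j => (hS₀ _).1 (v j).2
    choose σ hσ using hx
    obtain ⟨N, hN⟩ : ∃ N, ∀ j, σ j < N := by
      obtain ⟨N, hN⟩ := (Set.finite_range σ).bddAbove
      exact ⟨N + 1, fun j => Nat.lt_succ_of_le (hN ⟨j, rfl⟩)⟩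
    have h1 := (ha N (Nat.zero_le _)).1.comp (fun j => (⟨σ j, hN j⟩ : Fin N))
    have e1 : (rs N a ∘ fun j => (⟨σ j, hN j⟩ : Fin N)) = fun i => (v i : Ω) := funext hσ
    rw [e1] at h1
    exact h1

/-- back and forth -/
theorem exists_aut [Countable Ω] [Nonempty Ω] (hI : ∀ (n : ℕ) (v : Fin n → Ω), Isol L v)
    {n : ℕ} (v w : Fin n → Ω) (h : St (L := L) v w) : ∃ g : Ω ≃[L] Ω, ∀ i, g (v i) = w i := by
  classical
  obtain ⟨e0, he0⟩ := exists_surjective_nat Ω
  let e : ℕ → Ω := fun k => e0 (Nat.unpair k).1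
  have he : ∀ (t : Ω) (N : ℕ), ∃ k, N ≤ k ∧ e k = t := by
    intro t N
    obtain ⟨i, hi⟩ := he0 t
    refine ⟨Nat.pair i N, Nat.right_le_pair i N, ?_⟩
    show e0 (Nat.unpair (Nat.pair i N)).1 = t
    rw [Nat.unpair_pair]
    exact hi
  -- one step
  have hstep : ∀ (k : ℕ) (p q : Fin k → Ω), St (L := L) p q → ∀ b : Ω, ∃ c : Ω,
      St (L := L) (Fin.snoc p b : Fin (k + 1) → Ω) (Fin.snoc q c : Fin (k + 1) → Ω) := by
    intro k p q hpq b
    obtain ⟨χ, h1, h2⟩ := hI (k + 1) (Fin.snoc p b)
    obtain ⟨χ', hχ'⟩ := ext_formula χ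
    obtain ⟨c, hc⟩ := (hχ' Ω q).1 ((hpq χ').1 ((hχ' Ω p).2 ⟨b, h1⟩))
    exact ⟨c, (h2 _ hc).symm'⟩
  obtain ⟨a, ha0, ha⟩ := exists_seq (X := Ω × Ω)
    (fun k a => St (L := L) (rs k (fun i => (a i).1)) (rs k (fun i => (a i).2)))
    (fun k _ x => (Even k → x.1 = e (k / 2)) ∧ (¬ Even k → x.2 = e (k / 2)))
    (by
      intro k a b hab h
      have h1 : rs k (fun i => (a i).1) = rs k (fun i => (b i).1) :=
        funext fun i => congrArg Prod.fst (hab i i.2)
      have h2 : rs k (fun i => (a i).2) = rs k (fun i => (b i).2) :=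
        funext fun i => congrArg Prod.snd (hab i i.2)
      show St (L := L) (rs k (fun i => (b i).1)) (rs k (fun i => (b i).2))
      rw [← h1, ← h2]
      exact h)
    (by
      intro k a b x _ h
      exact h)
    n (fun i => if hi : i < n then (v ⟨i, hi⟩, w ⟨i, hi⟩) else (e 0, e 0))
    (by
      have h1 : rs n (fun i => (if hi : i < n then (v ⟨i, hi⟩, w ⟨i, hi⟩) else (e 0, e 0)).1) = v := by
        funext i
        simp [rs]
      have h2 : rs n (fun i => (if hi : i < n then (v ⟨i, hi⟩, w ⟨i, hi⟩) else (e 0, e 0)).2) = w := by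
        funext i
        simp [rs]
      show St (L := L) (rs n (fun i => (if hi : i < n then (v ⟨i, hi⟩, w ⟨i, hi⟩) else (e 0, e 0)).1))
        (rs n (fun i => (if hi : i < n then (v ⟨i, hi⟩, w ⟨i, hi⟩) else (e 0, e 0)).2))
      rw [h1, h2]
      exact h)
    (by
      intro k a _ hk
      have hup : ∀ x : Ω × Ω, rs (k + 1) (fun i => (Function.update a k x i).1) =
          (Fin.snoc (rs k (fun i => (a i).1)) x.1 : Fin (k + 1) → Ω) ∧
          rs (k + 1) (fun i => (Function.update a k x i).2) =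
          (Fin.snoc (rs k (fun i => (a i).2)) x.2 : Fin (k + 1) → Ω) := by
        intro x
        constructor
        · rw [← rs_update]
          congr 1
          funext i
          by_cases hi : i = k
          · subst hi; simp
          · rw [Function.update_of_ne hi, Function.update_of_ne hi]
        · rw [← rs_update]
          congr 1
          funext i
          by_cases hi : i = k
          · subst hi; simp
          · rw [Function.update_of_ne hi, Function.update_of_ne hi]
      by_cases hev : Even k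
      · obtain ⟨c, hc⟩ := hstep k _ _ hk (e (k / 2))
        refine ⟨(e (k / 2), c), ?_, fun _ => rfl, fun h => absurd hev h⟩
        show St (L := L) (rs (k + 1) (fun i => (Function.update a k (e (k / 2), c) i).1))
          (rs (k + 1) (fun i => (Function.update a k (e (k / 2), c) i).2))
        rw [(hup _).1, (hup _).2]
        exact hc
      · obtain ⟨c, hc⟩ := hstep k _ _ hk.symm' (e (k / 2))
        refine ⟨(c, e (k / 2)), ?_, fun h => absurd h hev, fun _ => rfl⟩
        show St (L := L) (rs (k + 1) (fun i => (Function.update a k (c, e (k / 2)) i).1))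
          (rs (k + 1) (fun i => (Function.update a k (c, e (k / 2)) i).2))
        rw [(hup _).1, (hup _).2]
        exact hc.symm')
  have hst : ∀ (m : ℕ) (σ : Fin m → ℕ),
      St (L := L) (fun j => (a (σ j)).1) (fun j => (a (σ j)).2) := by
    intro m σ
    obtain ⟨N, hN⟩ : ∃ N, ∀ j, σ j < N := by
      obtain ⟨N, hN⟩ := (Set.finite_range σ).bddAbove
      exact ⟨N + 1, fun j => Nat.lt_succ_of_le (hN ⟨j, rfl⟩)⟩
    have h1 := (ha (max n N) (le_max_left _ _)).1.comp
      (fun j => (⟨σ j, (hN j).trans_le (le_max_right _ _)⟩ : Fin (max n N)))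
    exact h1
  have hs1 : ∀ b : Ω, ∃ i, (a i).1 = b := by
    intro b
    obtain ⟨k, hk, hkb⟩ := he b n
    refine ⟨2 * k, ?_⟩
    rw [(ha (2 * k) (by omega)).2.1 (even_two_mul k), Nat.mul_div_cancel_left k two_pos, hkb]
  have hs2 : ∀ b : Ω, ∃ i, (a i).2 = b := by
    intro b
    obtain ⟨k, hk, hkb⟩ := he b n
    refine ⟨2 * k + 1, ?_⟩
    have h1 : ¬ Even (2 * k + 1) := Nat.not_even_iff_odd.2 ⟨k, rfl⟩
    have h2 : (2 * k + 1) / 2 = k := by omega
    rw [(ha (2 * k + 1) (by omega)).2.2 h1, h2, hkb]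
  have heq : ∀ i j, (a i).1 = (a j).1 ↔ (a i).2 = (a j).2 := by
    intro i j
    have h1 := hst 2 ![i, j] ((Term.var 0).equal (Term.var 1))
    rw [Formula.realize_equal, Formula.realize_equal] at h1
    simpa using h1
  choose i1 hi1 using hs1
  choose i2 hi2 using hs2
  have hg1 : ∀ i, (a (i1 (a i).1)).2 = (a i).2 := fun i => (heq _ _).1 (hi1 _)
  have hg2 : ∀ i, (a (i2 (a i).2)).1 = (a i).1 := fun i => (heq _ _).2 (hi2 _)
  refine ⟨⟨⟨fun b => (a (i1 b)).2, fun b => (a (i2 b)).1, fun b => ?_, fun b => ?_⟩, ?_, ?_⟩, ?_⟩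
  · show (a (i2 (a (i1 b)).2)).1 = b
    rw [hg2, hi1]
  · show (a (i1 (a (i2 b)).1)).2 = b
    rw [hg1, hi2]
  · intro m f x
    show (a (i1 (Structure.funMap f x))).2 = Structure.funMap f (fun j => (a (i1 (x j))).2)
    have h1 := hst (m + 1) (Fin.snoc (fun j => i1 (x j)) (i1 (Structure.funMap f x)) : Fin (m + 1) → ℕ)
      ((Term.var (Fin.last m)).equal (Term.func f (fun i => Term.var i.castSucc)))
    rw [Formula.realize_equal, Formula.realize_equal] at h1
    simp only [Term.realize_var, Term.realize_func, Fin.snoc_last, Fin.snoc_castSucc, hi1] at h1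
    exact h1.1 trivial
  · intro m r x
    show Structure.RelMap r (fun j => (a (i1 (x j))).2) ↔ Structure.RelMap r x
    have h1 := hst m (fun j => i1 (x j)) (r.formula (fun i => Term.var i))
    rw [Formula.realize_rel, Formula.realize_rel] at h1
    simp only [Term.realize_var, hi1] at h1
    exact h1.symm
  · intro i
    show (a (i1 (v i))).2 = w i
    have h1 := ha0 i i.2
    simp only [i.2, dif_pos] at h1
    have h2 : v i = (a i).1 := by rw [h1]
    have h3 : w i = (a i).2 := by rw [h1]
    rw [h2, h3]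
    exact hg1 i

/-- all types are realized in an omega-categorical structure -/
theorem realized [Countable L.Symbols] [Countable Ω] [Nonempty Ω]
    (h : Pool.Agent.R603.OmegaCategorical L Ω) {n : ℕ} (p : (L.completeTheory Ω).CompleteType (Fin n)) :
    ∃ v : Fin n → Ω, (L.completeTheory Ω).typeOf v = p := by
  obtain ⟨M, v, hv⟩ := Theory.exists_modelType_is_realized_in (L.completeTheory Ω) p
  obtain ⟨S, hS1, hS2⟩ : ∃ S : L.ElementarySubstructure M, Set.range v ⊆ S ∧ Countable S := by
    by_cases hM : Countable M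
    · exact ⟨⊤, fun x _ => by simp, inferInstance⟩
    · have h1 : Cardinal.aleph0 ≤ Cardinal.mk M := by
        by_contra hlt
        exact hM (Cardinal.mk_le_aleph0_iff.1 (not_le.1 hlt).le)
      obtain ⟨S, hS, hS'⟩ := exists_elementarySubstructure_card_eq L (Set.range v) Cardinal.aleph0.{0}
        le_rfl (by
          rw [Cardinal.lift_id, Cardinal.lift_id]
          exact Cardinal.mk_le_aleph0_iff.2 (Set.countable_range v).to_subtype) (by
          rw [Cardinal.lift_id, Cardinal.lift_id]
          exact Cardinal.mk_le_aleph0_iff.2 inferInstance) (by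
          rw [Cardinal.lift_id, Cardinal.lift_id]
          exact h1)
      refine ⟨S, hS, ?_⟩
      rw [Cardinal.lift_id, Cardinal.lift_id] at hS'
      exact Cardinal.mk_le_aleph0_iff.1 hS'.le
  obtain ⟨e⟩ := h S inferInstance
  let w : Fin n → S := fun i => ⟨v i, hS1 ⟨i, rfl⟩⟩
  refine ⟨fun i => e.symm (w i), ?_⟩
  rw [← hv]
  refine SetLike.ext fun φ => ?_
  rw [Theory.CompleteType.mem_typeOf, Theory.CompleteType.mem_typeOf]
  have h1 : (Formula.equivSentence.symm φ).Realize (e.symm ∘ w) ↔
      (Formula.equivSentence.symm φ).Realize w := StrongHomClass.realize_formula e.symm _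
  have h2 : (Formula.equivSentence.symm φ).Realize (S.subtype ∘ w) ↔
      (Formula.equivSentence.symm φ).Realize w := S.subtype.map_formula _ _
  exact h1.trans h2.symm

theorem st_of_typeOf [Nonempty Ω] {n : ℕ} {v w : Fin n → Ω}
    (h : (L.completeTheory Ω).typeOf v = (L.completeTheory Ω).typeOf w) : St (L := L) v w := by
  intro φ
  rw [← Theory.CompleteType.formula_mem_typeOf (T := L.completeTheory Ω),
    ← Theory.CompleteType.formula_mem_typeOf (T := L.completeTheory Ω), h]

theorem isol_of_open [Nonempty Ω] {n : ℕ} (v : Fin n → Ω)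
    (h : IsOpen ({(L.completeTheory Ω).typeOf v} : Set ((L.completeTheory Ω).CompleteType (Fin n)))) :
    Isol L v := by
  obtain ⟨U, ⟨ψ, rfl⟩, h1, h2⟩ := CompleteType.isTopologicalBasis_range_typesWith.exists_subset_of_mem_open
    (Set.mem_singleton ((L.completeTheory Ω).typeOf v)) h
  refine ⟨Formula.equivSentence.symm ψ, ?_, fun w hw => ?_⟩
  · exact Theory.CompleteType.mem_typeOf.1 h1
  · have h3 : (L.completeTheory Ω).typeOf w ∈ (L.completeTheory Ω).typesWith ψ :=
      Theory.CompleteType.mem_typeOf.2 hw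
    exact st_of_typeOf (h2 h3)

theorem dens [Countable L.Symbols] [Countable Ω] [Nonempty Ω]
    (h : Pool.Agent.R603.OmegaCategorical L Ω) (n : ℕ) (φ : L.Formula (Fin n)) (v : Fin n → Ω)
    (hv : φ.Realize v) : ∃ v' : Fin n → Ω, φ.Realize v' ∧ Isol L v' := by
  have hc : Countable ((L.completeTheory Ω).CompleteType (Fin n)) :=
    Function.Surjective.countable (f := fun v : Fin n → Ω => (L.completeTheory Ω).typeOf v)
      (fun p => realized h p)
  let U : Set ((L.completeTheory Ω).CompleteType (Fin n)) :=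
    (L.completeTheory Ω).typesWith (Formula.equivSentence φ)
  have hU : IsOpen U := CompleteType.isOpen_typesWith _
  have hvU : (L.completeTheory Ω).typeOf v ∈ U := Theory.CompleteType.formula_mem_typeOf.2 hv
  by_contra hcon
  have hno : ∀ p : U, ¬ IsOpen ({(p : (L.completeTheory Ω).CompleteType (Fin n))} :
      Set ((L.completeTheory Ω).CompleteType (Fin n))) := by
    rintro ⟨p, hp⟩ ho
    obtain ⟨w, rfl⟩ := realized h p
    exact hcon ⟨w, Theory.CompleteType.formula_mem_typeOf.1 hp, isol_of_open w ho⟩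
  have hd : Dense (⋂ p : U, ({(p : (L.completeTheory Ω).CompleteType (Fin n))} :
      Set ((L.completeTheory Ω).CompleteType (Fin n)))ᶜ) :=
    dense_iInter_of_isOpen (fun p => isOpen_compl_singleton)
      (fun p => dense_compl_singleton_iff_not_open.2 (hno p))
  obtain ⟨q, hq1, hq2⟩ := hd.inter_open_nonempty U hU ⟨_, hvU⟩
  rw [Set.mem_iInter] at hq2
  exact hq2 ⟨q, hq1⟩ rfl

theorem all_isol [Countable L.Symbols] [Countable Ω] [Nonempty Ω]
    (h : Pool.Agent.R603.OmegaCategorical L Ω) (n : ℕ) (v : Fin n → Ω) : Isol L v := by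
  obtain ⟨S, hS1, hS2⟩ := exists_atomic (L := L) (Ω := Ω) (dens h)
  obtain ⟨e⟩ := h S inferInstance
  refine (hS2 n (fun i => e (v i))).of_st fun φ => ?_
  have h1 : φ.Realize (e ∘ v) ↔ φ.Realize v := StrongHomClass.realize_formula e _
  have h2 : φ.Realize (S.subtype ∘ (e ∘ v)) ↔ φ.Realize (e ∘ v) := S.subtype.map_formula _ _
  exact h2.trans h1

/-- The Ryll-Nardzewski theorem: a countable omega-categorical structure in a countable language has
finitely many orbits of `n`-tuples. -/
theorem oligomorphic_of_omegaCategorical' (L : FirstOrder.Language.{0, 0}) [Countable L.Symbols]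
    (Ω : Type) [L.Structure Ω] [Countable Ω] [Nonempty Ω]
    (h : Pool.Agent.R603.OmegaCategorical L Ω) : Pool.Agent.R603.OligomorphicAut L Ω := by
  classical
  intro n
  have hfin : Finite ((L.completeTheory Ω).CompleteType (Fin n)) := by
    have hdis : DiscreteTopology ((L.completeTheory Ω).CompleteType (Fin n)) := by
      apply discreteTopology_iff_isOpen_singleton.2
      intro p
      obtain ⟨w, rfl⟩ := realized h p
      obtain ⟨χ, h1, h2⟩ := all_isol h n w
      have h3 : (L.completeTheory Ω).typesWith (Formula.equivSentence χ) =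
          {(L.completeTheory Ω).typeOf w} := by
        ext q
        constructor
        · intro hq
          obtain ⟨u, rfl⟩ := realized h q
          have h4 : χ.Realize u := Theory.CompleteType.formula_mem_typeOf.1 hq
          have h5 := h2 u h4
          show (L.completeTheory Ω).typeOf u = (L.completeTheory Ω).typeOf w
          refine SetLike.ext fun φ => ?_
          rw [Theory.CompleteType.mem_typeOf, Theory.CompleteType.mem_typeOf]
          exact h5 _
        · intro hq
          rw [Set.mem_singleton_iff] at hq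
          rw [hq]
          exact Theory.CompleteType.formula_mem_typeOf.2 h1
      rw [← h3]
      exact CompleteType.isOpen_typesWith _
    exact finite_of_compact_of_discrete
  have := Fintype.ofFinite ((L.completeTheory Ω).CompleteType (Fin n))
  choose f hf using fun p : (L.completeTheory Ω).CompleteType (Fin n) => realized h p
  refine ⟨Finset.univ.image f, fun v => ?_⟩
  obtain ⟨g, hg⟩ := exists_aut (all_isol h) (f ((L.completeTheory Ω).typeOf v)) v
    (st_of_typeOf (hf _))
  exact ⟨_, Finset.mem_image_of_mem f (Finset.mem_univ _), g, hg⟩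

/-- The Ryll-Nardzewski theorem, for infinite structures. -/
theorem oligomorphic_of_omegaCategorical (L : FirstOrder.Language.{0, 0}) [Countable L.Symbols]
    (Ω : Type) [L.Structure Ω] [Countable Ω] [Infinite Ω]
    (h : Pool.Agent.R603.OmegaCategorical L Ω) : Pool.Agent.R603.OligomorphicAut L Ω :=
  oligomorphic_of_omegaCategorical' L Ω h

end

end Pool.Agent.R546.RN
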